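import Pool.Agent.Helper62.FracGameProof

/-!
There are a hypergraph on 7 vertices and a legal integer first move `(x, 1)` of Edge-hitter in the
fractional transversal game, not covering the hypergraph fully, after which no integer move of
Staller is optimal: the value of the game with Staller to move is at least `9/2`, while every legal
integer move of Staller leads to at most `4`. The definitions are in
`Pool/Agent/Helper62/FracGameDefs.lean`.
-/

set_option autoImplicit false

namespace Pool.Agent.Results.MP_dde4b6_co.NoIntegerReply

open Pool.Agent.Helper62.FracGame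

theorem result : ∃ (H : Finset (Finset (Fin 7))) (x : Fin 7), ∅ ∉ H ∧
    IntegerPlay H (fun _ => 0) [x] ∧ ¬ FullyCovered H (loadAfter (fun _ => 0) [x]) ∧
    (∀ v, ¬ OptimalForStaller H (loadAfter (fun _ => 0) [x]) (intMove v)) ∧
    (∀ v, Legal H (loadAfter (fun _ => 0) [x]) (intMove v) →
      ((((intMove v).total : ℝ) : EReal) +
        gameValue H .edgeHitter ((intMove v).after (loadAfter (fun _ => 0) [x])) ≤ ((4 : ℝ) : EReal))) ∧
    ((9 / 2 : ℝ) : EReal) ≤ gameValue H .staller (loadAfter (fun _ => 0) [x]) :=
  main

end Pool.Agent.Results.MP_dde4b6_co.NoIntegerReply
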